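import Mathlib

set_option autoImplicit false
open Finset SimpleGraph MvPolynomial

namespace Pool.Agent.Results.MP_8e541a_co.Ideal

variable {V E : Type}

/-- Number of components of the spanning subgraph with edge set `A`. -/
noncomputable def k (ends : E → Sym2 V) (A : Finset E) : ℕ :=
  Nat.card (fromEdgeSet (ends '' A)).ConnectedComponent

/-- The rank `|V| - k(A)`. -/
noncomputable def r (ends : E → Sym2 V) (A : Finset E) : ℕ := Nat.card V - k ends A

/-- The Tutte polynomial of the multigraph with vertex set `V` and edge set `S`. -/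
noncomputable def T (ends : E → Sym2 V) (S : Finset E) : MvPolynomial (Fin 2) ℚ :=
  ∑ A ∈ S.powerset, (X 0 - 1) ^ (r ends S - r ends A) * (X 1 - 1) ^ (#A - r ends A)

/-- Identification of all vertices of `U` into one new vertex. -/
def con [DecidableEq V] (U : Finset V) (v : V) : Option {v // v ∉ U} :=
  if h : v ∈ U then none else some ⟨v, h⟩

/-- The Tutte polynomial of the contraction at `U` with all loops deleted. -/
noncomputable def Tc [DecidableEq V] [Fintype E] (ends : E → Sym2 V) (U : Finset V) :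
    MvPolynomial (Fin 2) ℚ :=
  T (fun e => (ends e).map (con U)) (univ.filter fun e => ¬ ((ends e).map (con U)).IsDiag)

theorem cc {Y : Type} (G : SimpleGraph V) (f : V → Y) (s : Function.Surjective f)
    (h : ∀ x y, f x = f y ↔ G.Reachable x y) : Nat.card G.ConnectedComponent = Nat.card Y := by
  refine Nat.card_eq_of_bijective (Quot.lift f fun x y a => (h x y).mpr a) ⟨?_, fun y => ?_⟩
  · rintro ⟨x⟩ ⟨y⟩ e; exact Quot.sound ((h x y).mp e)
  · obtain ⟨x, rfl⟩ := s y; exact ⟨Quot.mk _ x, rfl⟩

theorem push {W : Type} {G : SimpleGraph V} {H : SimpleGraph W} (f : V → W)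
    (h : ∀ x y, G.Adj x y → H.Reachable (f x) (f y)) {x y : V} (a : G.Reachable x y) :
    H.Reachable (f x) (f y) := by
  obtain ⟨w⟩ := a
  induction w with
  | nil => rfl
  | cons a _ ih => exact (h _ _ a).trans ih

theorem vle [Fintype V] (ends : E → Sym2 V) (A : Finset E) : Nat.card V ≤ #A + k ends A := by
  classical
  let G := fromEdgeSet (ends '' A)
  haveI : Fintype G.ConnectedComponent := Fintype.ofFinite _
  let F : Finset (Sym2 (Option V)) := A.image (fun e => (ends e).map some) ∪
    univ.image fun c : G.ConnectedComponent => s(none, some c.out)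
  have : ∀ v, (fromEdgeSet (F : Set (Sym2 (Option V)))).Reachable none v := by
    rintro (_ | v)
    · rfl
    refine Reachable.trans (v := some (G.connectedComponentMk v).out) (Adj.reachable ?_)
      (push some (fun x y a => Adj.reachable ?_) (ConnectedComponent.exact (Quot.out_eq _)))
    · exact ⟨mem_coe.mpr (mem_union_right _ (mem_image.mpr ⟨_, mem_univ _, rfl⟩)), by simp⟩
    · obtain ⟨⟨e, he, h⟩, n⟩ := a
      exact ⟨mem_coe.mpr (mem_union_left _ (mem_image.mpr ⟨e, he, by rw [h]; rfl⟩)), by simpa using n⟩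
  have h := (Connected.mk fun a b => (this a).symm.trans (this b)).card_vert_le_card_edgeSet_add_one
  have k2 : Nat.card (fromEdgeSet (F : Set (Sym2 (Option V)))).edgeSet ≤ #F := by
    rw [← Set.ncard_coe_finset, Nat.card_coe_set_eq]
    exact Set.ncard_le_ncard (by rw [edgeSet_fromEdgeSet]; exact Set.diff_subset) F.finite_toSet
  have k3 : #F ≤ #A + Fintype.card G.ConnectedComponent :=
    (card_union_le _ _).trans (add_le_add card_image_le card_image_le)
  rw [Finite.card_option] at h
  rw [k, Nat.card_eq_fintype_card (α := G.ConnectedComponent)]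
  omega

theorem TZ [Fintype V] [Nonempty V] (ends : E → Sym2 V) (S : Finset E) (h : k ends S = 1) :
    (X 0 - 1) * (X 1 - 1) ^ Nat.card V * T ends S =
      ∑ A ∈ S.powerset, ((X 0 - 1) * (X 1 - 1)) ^ k ends A * (X 1 - 1) ^ #A := by
  rw [T, mul_sum]
  refine sum_congr rfl fun A _ => ?_
  have h1 := vle ends A
  have h2 : k ends A ≤ Nat.card V := Nat.card_le_card_of_surjective _ Quot.mk_surjective
  have h3 : 0 < k ends A := Nat.card_pos
  obtain ⟨c, hc⟩ : ∃ c, k ends A = c + 1 := ⟨k ends A - 1, by omega⟩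
  obtain ⟨d, hd⟩ := Nat.exists_eq_add_of_le h2
  obtain ⟨e, he⟩ : ∃ e, #A = d + e := ⟨#A - d, by omega⟩
  rw [r, r, h, hd, hc, he, show c + 1 + d - 1 - (c + 1 + d - (c + 1)) = c by omega,
    show d + e - (c + 1 + d - (c + 1)) = e by omega, mul_pow]
  ring

variable [DecidableEq V] [DecidableEq E] (ends : E → Sym2 V)

def Ga (U : Finset V) (A : Finset E) : SimpleGraph V where
  Adj x y := x ≠ y ∧ ((∃ e ∈ A, ends e = s(x, y)) ∨ (x ∈ U ∧ y ∈ U))
  symm := ⟨fun _ _ h => ⟨h.1.symm, h.2.imp (fun ⟨e, a, b⟩ => ⟨e, a, b.trans Sym2.eq_swap⟩) And.symm⟩⟩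
  loopless := ⟨fun _ h => h.1 rfl⟩

noncomputable def ka (U : Finset V) (A : Finset E) : ℕ := Nat.card (Ga ends U A).ConnectedComponent

theorem rU {U : Finset V} {A : Finset E} {x y : V} (h : (∃ e ∈ A, ends e = s(x, y)) ∨ (x ∈ U ∧ y ∈ U)) :
    (Ga ends U A).Reachable x y := by
  by_cases e : x = y
  · rw [e]
  · exact Adj.reachable ⟨e, h⟩

theorem K1 {U : Finset V} {A : Finset E} {e : E} {s u : V} (h : ends e = s(s, u)) (hs : s ∈ U) :
    ka ends U (insert e A) = ka ends (insert u U) A := by
  refine cc _ (connectedComponentMk _) Quot.mk_surjective fun x y => ?_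
  rw [ConnectedComponent.eq]
  refine ⟨push id ?_, push id ?_⟩
  · have : ∀ x ∈ insert u U, (Ga ends U (insert e A)).Reachable s x := fun x hx => by
      rcases mem_insert.mp hx with rfl | hx
      exacts [rU ends (Or.inl ⟨e, mem_insert_self _ _, h⟩), rU ends (Or.inr ⟨hs, hx⟩)]
    rintro x y ⟨-, ⟨f, a, b⟩ | ⟨a, b⟩⟩
    exacts [rU ends (Or.inl ⟨f, mem_insert_of_mem a, b⟩), (this x a).symm.trans (this y b)]
  · rintro x y ⟨-, ⟨f, a, b⟩ | ⟨a, b⟩⟩
    · rcases mem_insert.mp a with rfl | a
      · refine rU ends (Or.inr ?_)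
        rcases Sym2.eq_iff.mp (h.symm.trans b) with ⟨rfl, rfl⟩ | ⟨rfl, rfl⟩ <;> simp [hs]
      · exact rU ends (Or.inl ⟨f, a, b⟩)
    · exact rU ends (Or.inr ⟨mem_insert_of_mem a, mem_insert_of_mem b⟩)

theorem con_eq {U : Finset V} {x y : V} : con U x = con U y ↔ x = y ∨ (x ∈ U ∧ y ∈ U) := by
  unfold con
  split_ifs <;> simp_all
  all_goals (rintro rfl; contradiction)

theorem K2 {U : Finset V} {A : Finset E} {e : E} (h : ((ends e).map (con U)).IsDiag) :
    ka ends U (insert e A) = ka ends U A := by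
  have : Ga ends U (insert e A) = Ga ends U A := by
    ext x y
    refine and_congr_right fun n => ⟨?_, Or.imp_left fun ⟨f, a, b⟩ => ⟨f, mem_insert_of_mem a, b⟩⟩
    rintro (⟨f, a, b⟩ | b)
    · rcases mem_insert.mp a with rfl | a
      · rw [b, Sym2.map_mk, Sym2.mk_isDiag_iff, con_eq] at h
        exact Or.inr (h.resolve_left n)
      · exact Or.inl ⟨f, a, b⟩
    · exact Or.inr b
  rw [ka, this, ka]

theorem K3 [Finite V] {A : Finset E} {s u : V} (n : u ≠ s) (h : ∀ e ∈ A, s ∉ ends e) :
    ka ends {s} A = ka ends {u, s} A + 1 := by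
  rw [ka, ka, ← Finite.card_option]
  have iso : ∀ x y, (Ga ends {s} A).Adj x y → x ≠ s ∧ y ≠ s := by
    rintro x y ⟨n, ⟨e, a, b⟩ | ⟨a, b⟩⟩
    · have := h e a
      rw [b, Sym2.mem_iff, not_or] at this
      exact ⟨Ne.symm this.1, Ne.symm this.2⟩
    · simp_all
  refine cc _ (fun x => if x = s then none else some (connectedComponentMk _ x)) ?_ fun x y => ⟨?_, ?_⟩
  · rintro (_ | ⟨⟨x⟩⟩)
    · exact ⟨s, if_pos rfl⟩
    · by_cases c : x = s
      · exact ⟨u, (if_neg n).trans (congrArg some (Quot.sound (rU ends (Or.inr (by simp [c])))))⟩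
      · exact ⟨x, if_neg c⟩
  · intro e
    split_ifs at e with a b b
    · rw [a, b]
    · have := push (H := Ga ends {s} A) (fun x => if x = s then u else x) ?_
        (ConnectedComponent.exact (Option.some.inj e))
      · simpa [a, b] using this
      rintro x y ⟨m, ⟨e, c, d⟩ | ⟨c, d⟩⟩
      · have := iso x y ⟨m, Or.inl ⟨e, c, d⟩⟩
        simp only [this.1, this.2, if_false]
        exact rU ends (Or.inl ⟨e, c, d⟩)
      · simp only [mem_insert, mem_singleton] at c d
        rcases c with rfl | rfl <;> rcases d with rfl | rfl <;> simp [n]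
  · rintro ⟨w⟩
    induction w with
    | nil => rfl
    | cons a _ ih =>
      rw [← ih, if_neg (iso _ _ a).1, if_neg (iso _ _ a).2]
      exact congrArg some (Quot.sound (rU ends (a.2.imp_right fun c => by simp_all)))

theorem K4 {U : Finset V} {s : V} (hs : s ∈ U) (A : Finset E) :
    k (fun e => (ends e).map (con U)) A = ka ends U A := by
  have g : ∀ x, con U (((con U x).map Subtype.val).getD s) = con U x := fun x => by
    by_cases c : x ∈ U <;> simp [con, c, hs]
  refine (cc _ (fun x => connectedComponentMk _ (con U x)) ?_ fun x y => ?_).symm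
  · rintro ⟨_ | ⟨x, hx⟩⟩
    exacts [⟨s, by simp only [con, dif_pos hs]; rfl⟩, ⟨x, by simp only [con, dif_neg hx]; rfl⟩]
  · rw [ConnectedComponent.eq]
    have q : ∀ x, (Ga ends U A).Reachable (((con U x).map Subtype.val).getD s) x := fun x =>
      (con_eq.mp (g x)).elim (fun e => by rw [e]) fun e => rU ends (Or.inr e)
    refine ⟨fun a => (q x).symm.trans ((push (fun z => (z.map Subtype.val).getD s) ?_ a).trans (q y)),
      push _ ?_⟩
    · rintro a b ⟨⟨e, he, h⟩, -⟩
      simp only at h
      generalize hz : ends e = z at h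
      induction z using Sym2.ind with
      | h u v =>
        have := (q u).trans ((rU ends (Or.inl ⟨e, he, hz⟩)).trans (q v).symm)
        rcases Sym2.eq_iff.mp h with ⟨rfl, rfl⟩ | ⟨rfl, rfl⟩
        exacts [this, this.symm]
    · rintro a b ⟨-, ⟨e, he, h⟩ | h⟩
      · by_cases c : con U a = con U b
        · rw [c]
        · exact Adj.reachable ⟨⟨e, he, by simp only [h]; rfl⟩, by simpa using c⟩
      · rw [con_eq.mpr (Or.inr h)]

noncomputable def Z (U : Finset V) (S : Finset E) : MvPolynomial (Fin 2) ℚ :=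
  ∑ A ∈ S.powerset, ((X 0 - 1) * (X 1 - 1)) ^ ka ends U A * (X 1 - 1) ^ #A

theorem Z1 {U : Finset V} {S : Finset E} {e : E} {s u : V} (h : ends e = s(s, u)) (hs : s ∈ U)
    (he : e ∉ S) : Z ends U (insert e S) = Z ends U S + (X 1 - 1) * Z ends (insert u U) S := by
  rw [Z, sum_powerset_insert he, Z, Z, mul_sum]
  refine congrArg _ (sum_congr rfl fun A hA => ?_)
  rw [K1 ends h hs, card_insert_of_notMem fun m => he (mem_powerset.mp hA m)]; ring

theorem Z2 {U : Finset V} {S : Finset E} {e : E} (h : ((ends e).map (con U)).IsDiag)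
    (he : e ∉ S) : Z ends U (insert e S) = X 1 * Z ends U S := by
  rw [Z, sum_powerset_insert he, Z, ← sum_add_distrib, mul_sum]
  refine sum_congr rfl fun A hA => ?_
  rw [K2 ends h, card_insert_of_notMem fun m => he (mem_powerset.mp hA m)]; ring

theorem result (V E : Type) [Fintype V] [DecidableEq V] [Fintype E] [DecidableEq E]
    (ends : E → Sym2 V) (hc : (fromEdgeSet (Set.range ends)).Connected) (h2 : 2 ≤ Fintype.card V)
    (s : V) : ∃ P : Finset V → MvPolynomial (Fin 2) ℚ, T ends univ =
      ∑ W ∈ (univ.filter fun u => u ≠ s ∧ ∃ e, ends e = s(s, u)).powerset.erase ∅,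
        P W * Tc ends (insert s W) := by
  set N := univ.filter fun u => u ≠ s ∧ ∃ e, ends e = s(s, u) with hN
  let L := fun (W : Finset V) e => ((ends e).map (con (insert s W))).IsDiag
  let I : MvPolynomial (Fin 2) ℚ → Prop := fun p => ∃ P : Finset V → MvPolynomial (Fin 2) ℚ, p =
    ∑ W ∈ N.powerset.erase ∅, P W * ((X 1 - 1) ^ #W * Z ends (insert s W) (univ.filter fun e => ¬ L W e))
  have I1 : ∀ c d p q, I p → I q → I (c * p + d * q) := by
    rintro c d _ _ ⟨P, rfl⟩ ⟨Q, rfl⟩
    refine ⟨fun W => c * P W + d * Q W, ?_⟩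
    rw [mul_sum, mul_sum, ← sum_add_distrib]
    exact sum_congr rfl fun _ _ => by ring
  have A : ∀ m W, #(N \ W) = m → W ⊆ N → W.Nonempty → ∀ j (S : Finset E),
      #(univ.filter fun e => ¬ (e ∈ S ↔ ¬ L W e)) = j → (∀ e, s ∉ ends e → ¬ L W e → e ∈ S) →
      I ((X 1 - 1) ^ #W * Z ends (insert s W) S) := by
    intro m
    induction m using Nat.strong_induction_on with
    | _ m ihm =>
    intro W hm hW ne j
    induction j using Nat.strong_induction_on with
    | _ j ihj =>
    intro S hj hS
    by_cases c : ∀ e, e ∈ S ↔ ¬ L W e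
    · refine ⟨fun W' => if W' = W then 1 else 0, ?_⟩
      simp only [ite_mul, one_mul, zero_mul, sum_ite_eq']
      rw [if_pos (mem_erase.mpr ⟨ne.ne_empty, mem_powerset.mpr hW⟩),
        show S = univ.filter fun e => ¬ L W e by ext e; simp [c e]]
    push Not at c
    obtain ⟨e, ⟨a, b⟩ | ⟨a, b⟩⟩ := c
    · have := ihj _ (hj ▸ card_lt_card ⟨fun f => by by_cases f = e <;> simp_all, fun t => by
        have := @t e; simp_all⟩) (S.erase e) rfl fun f x y => mem_erase.mpr ⟨by rintro rfl; exact y b, hS f x y⟩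
      have := I1 (X 1) 0 _ _ this this
      rw [← insert_erase a, Z2 ends b (notMem_erase _ _)]
      rwa [zero_mul, add_zero, mul_left_comm] at this
    · obtain ⟨u, hu⟩ := Sym2.mem_iff_exists.mp (by_contra fun x => a (hS e x b) : s ∈ ends e)
      have uW : u ∉ insert s W := fun x => b (by
        simp only [L, hu, Sym2.map_mk, Sym2.mk_isDiag_iff]; exact con_eq.mpr (Or.inr ⟨by simp, x⟩))
      rw [mem_insert, not_or] at uW
      have uN : u ∈ N := mem_filter.mpr ⟨mem_univ _, uW.1, e, hu⟩
      have p1 := ihj _ (hj ▸ card_lt_card ⟨fun f => by by_cases f = e <;> simp_all, fun t => by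
        have := @t e; simp_all⟩) (insert e S) rfl fun f x y => mem_insert_of_mem (hS f x y)
      have p2 := ihm _ (hm ▸ card_lt_card ⟨sdiff_subset_sdiff Subset.rfl (subset_insert _ _),
        fun t => by have := @t u; simp_all⟩) (insert u W) rfl (insert_subset uN hW)
        (insert_nonempty _ _) _ S rfl fun f x y => hS f x fun z => y (by
          simp only [L] at z ⊢
          generalize ends f = w at z
          induction w using Sym2.ind with
          | h p q =>
            simp only [Sym2.map_mk, Sym2.mk_isDiag_iff, con_eq, mem_insert] at z ⊢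
            tauto)
      have := I1 1 (-1) _ _ p1 p2
      rw [Z1 ends hu (mem_insert_self _ _) a, card_insert_of_notMem uW.2, Finset.insert_comm u s] at this
      refine (congrArg I ?_).mp this
      ring
  have B : ∀ j (S : Finset E), #(S.filter fun e => s ∈ ends e) = j → (∀ e, s ∉ ends e → e ∈ S) →
      I (Z ends {s} S) := by
    intro j
    induction j using Nat.strong_induction_on with
    | _ j ih =>
    intro S hj hS
    by_cases c : ∀ e ∈ S, s ∉ ends e
    · obtain ⟨u, hu⟩ : N.Nonempty := by
        obtain ⟨v, hv⟩ := Fintype.exists_ne_of_one_lt_card (α := V) (by omega) s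
        obtain ⟨w⟩ := hc.preconnected s v
        cases w with
        | nil => exact absurd rfl hv
        | cons a _ => exact ⟨_, mem_filter.mpr ⟨mem_univ _, (Adj.ne a).symm, a.1⟩⟩
      have := A _ {u} rfl (by simpa using hu) (by simp) _ S rfl fun e x _ => hS e x
      have := I1 (X 0 - 1) 0 _ _ this this
      refine (congrArg I ?_).mp this
      rw [zero_mul, add_zero, Z, Z, mul_sum, mul_sum]
      refine sum_congr rfl fun B hB => ?_
      rw [K3 ends (mem_filter.mp hu).2.1 fun e he => c e (mem_powerset.mp hB he), pair_comm, card_singleton]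
      ring
    push Not at c
    obtain ⟨e, a, b⟩ := c
    obtain ⟨u, hu⟩ := Sym2.mem_iff_exists.mp b
    have hS' : ∀ f, s ∉ ends f → f ∈ S.erase e := fun f x =>
      mem_erase.mpr ⟨by rintro rfl; exact x b, hS f x⟩
    have p1 := ih _ (hj ▸ card_lt_card ⟨filter_subset_filter _ (erase_subset _ _), fun t => by
      have := @t e; simp_all⟩) (S.erase e) rfl hS'
    rw [← insert_erase a]
    by_cases us : u = s
    · rw [Z2 ends (by simp [hu, us]) (notMem_erase _ _)]
      simpa using I1 (X 1) 0 _ _ p1 p1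
    · have p2 := A _ {u} rfl (by simpa [hN, us] using ⟨e, hu⟩) (by simp) _ _ rfl fun e x _ => hS' e x
      rw [Z1 ends hu (mem_singleton_self _) (notMem_erase _ _), pair_comm]
      simpa using I1 1 1 _ _ p1 p2
  obtain ⟨P, hP⟩ := B _ univ rfl fun _ _ => mem_univ _
  haveI : Nonempty V := ⟨s⟩
  have one : ∀ (U : Finset V) (S : Finset E), (∀ e, e ∈ S ∨ ((ends e).map (con U)).IsDiag) →
      ka ends U S = 1 := fun U S h => by
    have : (Ga ends U S).Preconnected := hc.preconnected.mono (by
      rintro x y ⟨⟨e, he⟩, n⟩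
      have n : x ≠ y := by simpa using n
      refine ⟨n, (h e).imp (fun m => ⟨e, m, he⟩) fun m => ?_⟩
      rw [he, Sym2.map_mk, Sym2.mk_isDiag_iff, con_eq] at m
      exact m.resolve_left n)
    exact Nat.card_eq_one_iff_unique.mpr ⟨this.subsingleton_connectedComponent, inferInstance⟩
  have e0 : ∀ A, k ends A = ka ends {s} A := fun A => by
    have : fromEdgeSet (ends '' A) = Ga ends {s} A := by
      ext x y
      simp only [fromEdgeSet_adj, Ga, Set.mem_image, mem_coe, mem_singleton]
      grind
    rw [k, this, ka]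
  have nz : ∀ i, (X i - 1 : MvPolynomial (Fin 2) ℚ) ≠ 0 := fun i h => by
    simpa using congrArg (eval fun _ => 0) h
  refine ⟨P, mul_left_cancel₀ (mul_ne_zero (nz 0) (pow_ne_zero (Nat.card V) (nz 1))) ?_⟩
  rw [TZ _ _ ((e0 _).trans (one _ _ fun _ => Or.inl (mem_univ _))), mul_sum]
  simp only [e0]
  refine hP.trans (sum_congr rfl fun W hW => ?_)
  have t := TZ (fun e => (ends e).map (con (insert s W))) (univ.filter fun e => ¬ L W e)
    ((K4 ends (mem_insert_self _ _) _).trans (one _ _ fun e => by simpa using (em _).symm))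
  simp only [K4 ends (mem_insert_self s W)] at t
  have sW : s ∉ W := fun m => (mem_filter.mp (mem_powerset.mp (mem_erase.mp hW).2 m)).2.1 rfl
  have : Nat.card V = Nat.card (Option {v // v ∉ insert s W}) + #W := by
    have := card_le_univ (insert s W)
    rw [Finite.card_option, Nat.card_eq_fintype_card, Nat.card_eq_fintype_card,
      Fintype.card_subtype_compl, Fintype.card_coe]
    rw [card_insert_of_notMem sW] at this ⊢
    omega
  rw [Z, ← t, this, Tc]
  ring

end Pool.Agent.Results.MP_8e541a_co.Ideal
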